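import Pool.Agent.Helper69.VX.St

/-!
# Project VX (MP_e12aa9_pr), module VOS
-/

set_option autoImplicit false

namespace Pool.Agent.Helper6.VX

open Finset Filter Pool.Agent.Helper82.CN Pool.Agent.Helper11.PV Pool.Agent.Helper69.VX

lemma mix_edge {V : Type} [DecidableEq V] (u : V) (ω η : Sym2 V → Bool) (a b : V) :
    ((gr ω).Adj a b → (gr (mix (EK {v | v ≠ u}) ω η)).Adj a b ∨ a = u ∨ b = u) ∧
    ((gr (mix (EK {v | v ≠ u}) ω η)).Adj a b → (gr ω).Adj a b ∨ a = u ∨ b = u) := by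
  by_cases ha : a = u
  · exact ⟨fun _ => Or.inr (Or.inl ha), fun _ => Or.inr (Or.inl ha)⟩
  by_cases hb : b = u
  · exact ⟨fun _ => Or.inr (Or.inr hb), fun _ => Or.inr (Or.inr hb)⟩
  constructor
  · rintro ⟨h1, h2⟩
    left
    refine ⟨h1, ?_⟩
    rw [mix_pos (mem_EK.mpr ⟨h1, ha, hb⟩)]
    exact h2
  · rintro ⟨h1, h2⟩
    left
    refine ⟨h1, ?_⟩
    rw [mix_pos (mem_EK.mpr ⟨h1, ha, hb⟩)] at h2
    exact h2

theorem hVOS : StPHB → StVOS := by
  intro hPHB p n l u h0 h1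
  rw [← pyth]
  have hB : ∀ ω η : Sym2 (Fin n) → Bool,
      PH l ω ≤ PH l (mix (EK {v | v ≠ u}) ω η) + 1 ∧
      PH l (mix (EK {v | v ≠ u}) ω η) ≤ PH l ω + 1 := by
    intro ω η
    obtain ⟨-, -, h3, -, -⟩ := hPHB (Fin n) l
    have e1 := h3 (gr (mix (EK {v | v ≠ u}) ω η)) (gr ω) u
      (fun a b h => (mix_edge u ω η a b).1 h)
    have e2 := h3 (gr ω) (gr (mix (EK {v | v ≠ u}) ω η)) u
      (fun a b h => (mix_edge u ω η a b).2 h)
    unfold PH
    exact ⟨by exact_mod_cast e1, by exact_mod_cast e2⟩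
  have hC : ∀ ω : Sym2 (Fin n) → Bool,
      (PH l ω - AV p (EK {v | v ≠ u}) (PH l) ω) ^ 2 ≤ 1 := by
    intro ω
    have e1 : PH l ω ≤ AV p (EK {v | v ≠ u}) (PH l) ω + 1 := by
      have h := EE_mono h0 h1 (fun η => (hB ω η).1)
      rw [EE_const, EE_add, EE_const] at h
      exact h
    have e2 : AV p (EK {v | v ≠ u}) (PH l) ω ≤ PH l ω + 1 := by
      have h := EE_mono h0 h1 (fun η => (hB ω η).2)
      rw [EE_const] at h
      exact h
    have e3 : |PH l ω - AV p (EK {v | v ≠ u}) (PH l) ω| ≤ 1 := by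
      rw [abs_le]
      constructor <;> linarith
    rw [← sq_abs]
    nlinarith [abs_nonneg (PH l ω - AV p (EK {v | v ≠ u}) (PH l) ω)]
  have h := EE_mono h0 h1 hC
  rw [EE_const] at h
  exact h

end Pool.Agent.Helper6.VX
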